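import Pool.Agent.R597.GBP

/-!
# The forcing theorem does not prevent proper classes from becoming sets

Let `N` be a countable transitive model of ZFC, let `M` be the set of the hereditarily countable
sets of `N`, and let `C` be the set of the subsets of `M` that are in `N`. Then `(M, C)` is a model
of `GB⁻`, and `W`, the power set of `ω` in `N`, is a proper class of it. The conditions of the
forcing are the finite sequences of elements of `W`, ordered by extension, and for all `n, k ∈ ω`
a condition `c n k` that is above the sequences `s` with `k ∈ s n`. The generic filters over
`(M, C)` are the generic filters over `N`, so that the forcing theorem over `(M, C)` follows from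
the forcing theorem over `N`. The element with the index `n` of the generic sequence, which
enumerates `W`, has a name that uses only the conditions `c n k`, and these names form a set of `M`.
-/

set_option autoImplicit false

namespace Pool.Agent.Results.MP_a83877_lc.ProperClassBecomesSet

open Pool.Agent.W868 Pool.Agent.W868.GM Pool.Agent.R597
open ZFSet (pair)

/-- There are a countable transitive model `(M, C)` of `GB⁻`, a notion of class forcing for it with
a greatest element that satisfies the forcing theorem over `(M, C)`, a proper class `X` of
`(M, C)`, and a name `σ ∈ M` such that the value of `σ` is `X` for all generic filters over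
`(M, C)`, and every condition is an element of a generic filter. -/
theorem result : ∃ M C P Le : ZFSet.{0}, {x | x ∈ M}.Countable ∧ {X | X ∈ C}.Countable ∧
    IsGB M C ∧ IsClassForcing C P Le ∧ (∃ t ∈ P, ∀ p ∈ P, pair p t ∈ Le) ∧
    ForcingThm M C P Le ∧ (∀ p ∈ P, ∃ G, IsGen C P Le G ∧ p ∈ G) ∧
    ∃ X ∈ C, X ∉ M ∧ ∃ σ ∈ M, IsName P σ ∧ ∀ G, IsGen C P Le G → ev G σ = X :=
  counterexample

end Pool.Agent.Results.MP_a83877_lc.ProperClassBecomesSet
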